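import Mathlib

set_option autoImplicit false
open Cardinal Order Set

universe u v w

namespace Pool.Agent.Results.MP_cf3da8_lc.LocalCH

/-- `μ` is a measurable cardinal: uncountable, and some set of cardinality `μ` carries a
`μ`-complete nonprincipal ultrafilter. -/
def IsMeasurableCardinal (μ : Cardinal.{u}) : Prop :=
  ℵ₀ < μ ∧ ∃ X : Type u, #X = μ ∧ ∃ U : Ultrafilter X,
    (∀ x : X, ({x} : Set X) ∉ U) ∧
    ∀ S : Set (Set X), #S < μ → (∀ s ∈ S, s ∈ U) → ⋂₀ S ∈ U

/-- The asymmetric polarized relation at `(λ⁺, λ)`: every colouring `c : λ⁺ × λ → {0,1}` is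
constantly `0` on some `A × B` with `|A| = λ⁺`, `|B| = λ`, or constantly `1` on some `A × B` with
`A` of order type `α` (the range of a strictly increasing map on the ordinals below `α`)
and `|B| = λ`. -/
def Arrow (lam : Cardinal.{u}) (α : Ordinal.{u}) : Prop :=
  ∀ c : Ordinal.{u} → Ordinal.{u} → Fin 2,
    (∃ A B : Set Ordinal.{u},
      A ⊆ Set.Iio (succ lam).ord ∧ #A = Cardinal.lift.{u + 1} (succ lam) ∧
      B ⊆ Set.Iio lam.ord ∧ #B = Cardinal.lift.{u + 1} lam ∧
      ∀ a ∈ A, ∀ b ∈ B, c a b = 0) ∨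
    (∃ (f : Ordinal.{u} → Ordinal.{u}) (B : Set Ordinal.{u}),
      StrictMonoOn f (Set.Iio α) ∧ (∀ ξ < α, f ξ < (succ lam).ord) ∧
      B ⊆ Set.Iio lam.ord ∧ #B = Cardinal.lift.{u + 1} lam ∧
      ∀ ξ < α, ∀ b ∈ B, c (f ξ) b = 1)

/-- Transfinite dependent choice along a well-order. -/
lemma exists_seq {J : Type v} {X : Type w} [LinearOrder J] [WellFoundedLT J]
    (R : J → X → Prop) (Q : J → J → X → X → Prop)
    (h : ∀ (j : J) (g : (i : J) → i < j → X), ∃ x, R j x ∧ ∀ i (hi : i < j), Q i j (g i hi) x) :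
    ∃ s : J → X, (∀ j, R j (s j)) ∧ ∀ i j, i < j → Q i j (s i) (s j) := by
  classical
  choose F hF1 hF2 using h
  let s : J → X := (wellFounded_lt (α := J)).fix F
  have hs : ∀ j, s j = F j (fun i _ => s i) := fun j => (wellFounded_lt (α := J)).fix_eq F j
  refine ⟨s, fun j => ?_, fun i j hij => ?_⟩
  · rw [hs j]
    exact hF1 j _
  · rw [hs j]
    exact hF2 j (fun i _ => s i) i hij

section Core

variable {W L I : Type u} [LinearOrder W] [WellFoundedLT W] [LinearOrder I] [WellFoundedLT I]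

/-- The construction of the sets `Z_γ`. -/
lemma core (lam : Cardinal.{u}) (d : W → W → I) (ν : I → Cardinal.{u})
    (hν0 : ∀ i, ℵ₀ ≤ ν i) (hν : ∀ i, ν i < lam)
    (hd : ∀ (γ : W) (i : I), #{δ | δ < γ ∧ d δ γ ≤ i} ≤ ν i)
    (B : W → Set L) (hB : ∀ β, lam ≤ #(B β)) :
    ∃ z : W → W → L, (∀ γ β, β < γ → z γ β ∈ B β) ∧
      ∀ (h : ℕ → W) (i : I), (∀ m n, m < n → h m < h n ∧ d (h m) (h n) ≤ i) →
        #{x : L | ∀ n, ∃ β < h n, z (h n) β = x} < lam := by
  obtain ⟨z, hz1, hz2⟩ := exists_seq (J := W) (X := W → L)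
    (R := fun γ y => ∀ β < γ, y β ∈ B β)
    (Q := fun δ γ x y => ∀ β < γ, d δ γ ≤ d β γ → ∀ β' < δ, d β' δ ≤ d β γ → y β ≠ x β') (by
      intro γ g
      have hex : ∀ β : W, β < γ → ∃ w : L, w ∈ B β ∧
          ∀ δ (hδ : δ < γ), d δ γ ≤ d β γ → ∀ β' < δ, d β' δ ≤ d β γ → w ≠ g δ hδ β' := by
        intro β _
        let V : Set L := ⋃ p : {δ | δ < γ ∧ d δ γ ≤ d β γ},
          (fun β' => g p.1 p.2.1 β') '' {β' | β' < p.1 ∧ d β' p.1 ≤ d β γ}
        have hV : #V ≤ ν (d β γ) := by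
          refine (Cardinal.mk_iUnion_le _).trans ?_
          refine (mul_le_mul' (hd γ (d β γ)) (ciSup_le' ?_)).trans
            (Cardinal.mul_eq_self (hν0 _)).le
          intro p
          exact Cardinal.mk_image_le.trans (hd p.1 (d β γ))
        have hne : ¬ B β ⊆ V := by
          intro hsub
          exact absurd (((hB β).trans (Cardinal.mk_le_mk_of_subset hsub)).trans hV)
            (not_le.2 (hν _))
        obtain ⟨w, hw, hwV⟩ := Set.not_subset.1 hne
        refine ⟨w, hw, ?_⟩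
        intro δ hδ h1 β' hβ' h2 heq
        apply hwV
        exact Set.mem_iUnion.2 ⟨⟨δ, hδ, h1⟩, β', ⟨hβ', h2⟩, heq.symm⟩
      classical
      by_cases hL : Nonempty L
      · obtain ⟨l0⟩ := hL
        refine ⟨fun β => if hβ : β < γ then (hex β hβ).choose else l0, ?_, ?_⟩
        · intro β hβ
          simp only [dif_pos hβ]
          exact (hex β hβ).choose_spec.1
        · intro δ hδ β hβ h1 β' hβ' h2
          simp only [dif_pos hβ]
          exact (hex β hβ).choose_spec.2 δ hδ h1 β' hβ' h2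
      · exfalso
        have h1 := hB γ
        have : #(B γ) = 0 := by
          rw [Cardinal.mk_eq_zero_iff]
          exact ⟨fun x => hL ⟨x.1⟩⟩
        rw [this] at h1
        exact absurd ((hν (d γ γ)).trans_le h1) (not_lt.2 zero_le))
  refine ⟨z, fun γ β hβ => hz1 γ β hβ, ?_⟩
  intro h i hh
  have hsub : {x : L | ∀ n, ∃ β < h n, z (h n) β = x} ⊆
      ⋃ n : ULift.{u} ℕ, (fun β => z (h n.down) β) '' {β | β < h n.down ∧ d β (h n.down) ≤ i} := by
    intro x hx
    by_contra hcon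
    choose β hβ1 hβ2 using hx
    have hbig : ∀ n, i < d (β n) (h n) := by
      intro n
      by_contra hle
      push Not at hle
      exact hcon (Set.mem_iUnion.2 ⟨⟨n⟩, β n, ⟨hβ1 n, hle⟩, hβ2 n⟩)
    have hdec : ∀ m n, m < n → d (β n) (h n) < d (β m) (h m) := by
      intro m n hmn
      by_contra hle
      push Not at hle
      obtain ⟨h1, h2⟩ := hh m n hmn
      exact hz2 (h m) (h n) h1 (β n) (hβ1 n) (h2.trans (hbig n).le) (β m) (hβ1 m) hle
        ((hβ2 n).trans (hβ2 m).symm)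
    have hwf := wellFounded_lt (α := I)
    exact (RelEmbedding.wellFounded_iff_isEmpty.1 hwf).false
      (RelEmbedding.natGT (fun n => d (β n) (h n)) (fun n => hdec n (n+1) (Nat.lt_succ_self n)))
  refine lt_of_le_of_lt (Cardinal.mk_le_mk_of_subset hsub) ?_
  refine lt_of_le_of_lt ((Cardinal.mk_iUnion_le _).trans ?_) (hν i)
  refine (mul_le_mul' (?_ : #(ULift.{u} ℕ) ≤ ν i) (ciSup_le' ?_)).trans
    (Cardinal.mul_eq_self (hν0 _)).le
  · simpa using hν0 i
  · intro n
    exact Cardinal.mk_image_le.trans (hd _ _)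

end Core

/-- Homogeneous sequences from a complete ultrafilter. -/
lemma exists_hom {X I : Type u} (μ : Cardinal.{u}) (U : Ultrafilter X)
    (hU1 : ∀ x : X, ({x} : Set X) ∉ U)
    (hU2 : ∀ S : Set (Set X), #S < μ → (∀ s ∈ S, s ∈ U) → ⋂₀ S ∈ U)
    (hI : #I < μ) (lt : X → X → Prop) (hlt : ∀ x, #{y | ¬ lt x y} < μ) (col : X → X → I) :
    ∃ (s : ℕ → X) (i : I), ∀ m n, m < n → lt (s m) (s n) ∧ col (s m) (s n) = i := by
  classical
  -- small sets are not in the ultrafilter
  have hsmall : ∀ T : Set X, #T < μ → Tᶜ ∈ U := by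
    intro T hT
    have h1 : ⋂₀ ((fun x => ({x} : Set X)ᶜ) '' T) ∈ U := by
      apply hU2
      · exact lt_of_le_of_lt Cardinal.mk_image_le hT
      · rintro _ ⟨x, _, rfl⟩
        exact Ultrafilter.compl_mem_iff_notMem.2 (hU1 x)
    refine Filter.mem_of_superset h1 ?_
    intro y hy hyT
    exact hy _ ⟨y, hyT, rfl⟩ rfl
  -- partitions into few pieces
  have hpart : ∀ g : X → I, ∃ i, {y | g y = i} ∈ U := by
    intro g
    by_contra hcon
    push Not at hcon
    have h1 : ⋂₀ (Set.range (fun i : I => {y | g y = i}ᶜ)) ∈ U := by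
      apply hU2
      · exact lt_of_le_of_lt Cardinal.mk_range_le hI
      · rintro _ ⟨i, rfl⟩
        exact Ultrafilter.compl_mem_iff_notMem.2 (hcon i)
    have h2 : ⋂₀ (Set.range (fun i : I => {y | g y = i}ᶜ)) = ∅ := by
      rw [Set.eq_empty_iff_forall_notMem]
      intro y hy
      exact hy _ ⟨g y, rfl⟩ rfl
    rw [h2] at h1
    exact U.empty_notMem h1
  have hc : ∀ x, ∃ i, {y | col x y = i} ∈ U := fun x => hpart (col x)
  choose i hi using hc
  obtain ⟨i0, hi0⟩ := hpart i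
  have hgood : ∀ x ∈ {y | i y = i0}, {y | lt x y ∧ col x y = i0} ∈ U := by
    intro x hx
    have h1 := hsmall _ (hlt x)
    have h2 := hi x
    have hx' : i x = i0 := hx
    rw [hx'] at h2
    refine Filter.mem_of_superset (Filter.inter_mem h1 h2) ?_
    rintro y ⟨hy1, hy2⟩
    exact ⟨not_not.1 hy1, hy2⟩
  obtain ⟨s, hs1, hs2⟩ := exists_seq (J := ℕ) (X := X)
    (R := fun _ x => i x = i0)
    (Q := fun _ _ x y => i x = i0 → lt x y ∧ col x y = i0) (by
      intro j g
      have h1 : (⋂ m : Fin j, {y | i (g m m.2) = i0 → lt (g m m.2) y ∧ col (g m m.2) y = i0}) ∈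
          (U : Filter X) := by
        rw [Filter.iInter_mem]
        intro m
        by_cases hm : i (g m m.2) = i0
        · refine Filter.mem_of_superset (hgood _ hm) ?_
          intro y hy _
          exact hy
        · refine Filter.mem_of_superset Filter.univ_mem ?_
          intro y _ h
          exact absurd h hm
      obtain ⟨y, hy1, hy2⟩ := U.nonempty_of_mem (Filter.inter_mem h1 hi0)
      refine ⟨y, hy2, fun m hm => ?_⟩
      exact Set.mem_iInter.1 hy1 ⟨m, hm⟩)
  exact ⟨s, i0, fun m n hmn => hs2 m n hmn (hs1 m)⟩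

/-- Pulling a set of ordinals below `o` back to the type of `o` preserves cardinality. -/
lemma card_pull (o : Ordinal.{u}) (A : Set Ordinal.{u}) (hA : A ⊆ Set.Iio o) :
    Cardinal.lift.{u + 1} #{x : o.ToType | (Ordinal.ToType.toOrd x).1 ∈ A} = #A := by
  have e : {x : o.ToType | (Ordinal.ToType.toOrd x).1 ∈ A} ≃ A :=
    { toFun := fun x => ⟨(Ordinal.ToType.toOrd x.1).1, x.2⟩
      invFun := fun a => ⟨Ordinal.ToType.mk ⟨a.1, hA a.2⟩, by simp⟩
      left_inv := fun x => by simp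
      right_inv := fun a => by simp }
  have := Cardinal.mk_congr_lift e
  rw [Cardinal.lift_id'.{u, u + 1}] at this
  exact this

/-- If `λ` is a singular limit of measurable cardinals and `2^λ = λ⁺` then the asymmetric
polarized relation fails for some `α < λ⁺`. -/
theorem result : ∀ lam : Cardinal.{u},
    lam.ord.cof < lam →
    (∀ ρ < lam, ∃ μ, ρ < μ ∧ μ < lam ∧ IsMeasurableCardinal μ) →
    2 ^ lam = succ lam →
    ∃ α < (succ lam).ord, ¬ Arrow lam α := by
  classical
  intro lam hsing hlim hch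
  obtain ⟨μ, hμ1, hμ2, hμℵ, X, hX, U, hU1, hU2⟩ := hlim _ hsing
  have hlam : ℵ₀ ≤ lam := (hμℵ.trans hμ2).le
  -- the well-orders
  let W : Type u := (succ lam).ord.ToType
  let L : Type u := lam.ord.ToType
  have hW : #W = succ lam := Cardinal.mk_ord_toType _
  have hL : #L = lam := Cardinal.mk_ord_toType _
  have hIioL : ∀ x : L, #(Set.Iio x) < lam := fun x => Cardinal.mk_Iio_toType_ord_lt x
  have hIicL : ∀ x : L, #(Set.Iic x) < lam := by
    intro x
    have h3 : Set.Iic x = insert x (Set.Iio x) := Set.Iio_insert.symm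
    rw [h3]
    refine lt_of_le_of_lt (Cardinal.mk_insert_le) ?_
    exact Cardinal.add_lt_of_lt hlam (hIioL x) (one_lt_aleph0.trans_le hlam)
  have hIioW : ∀ x : W, #(Set.Iio x) ≤ lam := by
    intro x
    have := Cardinal.mk_Iio_toType_ord_lt x
    exact Order.lt_succ_iff.1 this
  -- a small cofinal subset
  obtain ⟨S, hScof, hScard⟩ : ∃ S : Set L, (∀ x : L, ∃ s ∈ S, x ≤ s) ∧ #S = lam.ord.cof := by
    have h1 : Order.cof L = lam.ord.cof := by
      rw [← Ordinal.cof_type, Ordinal.type_toType]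
    obtain ⟨S, hS1, hS2⟩ := Order.exists_cof_eq L
    exact ⟨S, hS1, hS2.trans h1⟩
  have hLne : Nonempty L := by
    rw [← Cardinal.mk_ne_zero_iff, hL]
    exact (aleph0_pos.trans_le hlam).ne'
  have hWne : Nonempty W := by
    rw [← Cardinal.mk_ne_zero_iff, hW]
    exact (aleph0_pos.trans_le (hlam.trans (le_succ lam))).ne'
  -- the rank function with small fibres
  have hrk : ∀ x : L, ({s : S | x ≤ s.1} : Set S).Nonempty := by
    intro x
    obtain ⟨s, hs, hxs⟩ := hScof x
    exact ⟨⟨s, hs⟩, hxs⟩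
  let rk : L → S := fun x => WellFounded.min (wellFounded_lt (α := S)) _ (hrk x)
  have hrk1 : ∀ x : L, x ≤ (rk x).1 := fun x =>
    WellFounded.min_mem (wellFounded_lt (α := S)) _ (hrk x)
  have he : ∀ γ : W, ∃ f : W → L, Set.InjOn f (Set.Iio γ) := by
    intro γ
    have h1 : #(Set.Iio γ) ≤ #L := by rw [hL]; exact hIioW γ
    obtain ⟨f⟩ := h1
    refine ⟨fun x => if h : x ∈ Set.Iio γ then f ⟨x, h⟩ else Classical.arbitrary L, ?_⟩
    intro x hx y hy hxy
    simp only [dif_pos hx, dif_pos hy] at hxy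
    exact congrArg Subtype.val (f.injective hxy)
  choose e he using he
  let d : W → W → S := fun δ γ => rk (e γ δ)
  let ν : S → Cardinal.{u} := fun i => max (#(Set.Iic i.1)) ℵ₀
  have hν0 : ∀ i, ℵ₀ ≤ ν i := fun i => le_max_right _ _
  have hν : ∀ i, ν i < lam := fun i => max_lt (hIicL i.1) (hμℵ.trans hμ2)
  have hd : ∀ (γ : W) (i : S), #{δ | δ < γ ∧ d δ γ ≤ i} ≤ ν i := by
    intro γ i
    have hinj : Set.InjOn (e γ) {δ | δ < γ ∧ d δ γ ≤ i} := (he γ).mono (fun δ hδ => hδ.1)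
    rw [← Cardinal.mk_image_eq_of_injOn _ _ hinj]
    refine (Cardinal.mk_le_mk_of_subset ?_).trans (le_max_left _ _)
    rintro _ ⟨δ, hδ, rfl⟩
    exact (hrk1 (e γ δ)).trans hδ.2
  -- enumeration of the large subsets
  obtain ⟨B, hBsurj⟩ : ∃ B : W → {T : Set L // #T = lam}, Function.Surjective B := by
    have hne : Nonempty {T : Set L // #T = lam} := ⟨⟨Set.univ, by rw [Cardinal.mk_univ, hL]⟩⟩
    have hle : #{T : Set L // #T = lam} ≤ #W := by
      refine (Cardinal.mk_subtype_le _).trans ?_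
      rw [Cardinal.mk_set, hL, hch, hW]
    obtain ⟨g⟩ := hle
    exact ⟨Function.invFun g, Function.invFun_surjective g.injective⟩
  obtain ⟨z, hz1, hz2⟩ := core (W := W) (L := L) (I := S) lam d ν hν0 hν hd (fun β => (B β).1)
    (fun β => (B β).2.ge)
  -- the colouring
  let c : Ordinal.{u} → Ordinal.{u} → Fin 2 := fun a b =>
    if ∃ (ha : a < (succ lam).ord) (hb : b < lam.ord),
      ∃ β < (Ordinal.ToType.mk ⟨a, ha⟩ : W), z (Ordinal.ToType.mk ⟨a, ha⟩) β
        = (Ordinal.ToType.mk ⟨b, hb⟩ : L) then 1 else 0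
  refine ⟨μ.ord, ?_, ?_⟩
  · exact Cardinal.ord_lt_ord.2 (hμ2.trans (lt_succ lam))
  intro hArrow
  rcases hArrow c with ⟨A, Bs, hA1, hA2, hB1, hB2, hc⟩ | ⟨f, Bs, hf1, hf2, hB1, hB2, hc⟩
  · -- colour 0
    have hA3 := card_pull _ A hA1
    have hB3 := card_pull _ Bs hB1
    rw [hA2, Cardinal.lift_inj] at hA3
    rw [hB2, Cardinal.lift_inj] at hB3
    obtain ⟨β, hβ⟩ := hBsurj ⟨{x : L | (Ordinal.ToType.toOrd x).1 ∈ Bs}, hB3⟩
    obtain ⟨γ, hγA, hβγ⟩ : ∃ γ ∈ {x : W | (Ordinal.ToType.toOrd x).1 ∈ A}, β < γ := by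
      by_contra hcon
      push Not at hcon
      have h1 : #{x : W | (Ordinal.ToType.toOrd x).1 ∈ A} ≤ #(Set.Iic β) :=
        Cardinal.mk_le_mk_of_subset hcon
      have h2 : #(Set.Iic β) ≤ lam := by
        have h3 : Set.Iic β = insert β (Set.Iio β) := Set.Iio_insert.symm
        rw [h3]
        refine (Cardinal.mk_insert_le).trans ?_
        exact (add_le_add (hIioW β) (one_le_aleph0.trans hlam)).trans (Cardinal.add_eq_self hlam).le
      rw [hA3] at h1
      exact absurd (h1.trans h2) (not_le.2 (lt_succ lam))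
    have hz := hz1 γ β hβγ
    rw [hβ] at hz
    have h0 := hc _ hγA _ hz
    have h1 : c (Ordinal.ToType.toOrd γ).1 (Ordinal.ToType.toOrd (z γ β)).1 = 1 := by
      simp only [c]
      rw [if_pos]
      exact ⟨(Ordinal.ToType.toOrd γ).2, (Ordinal.ToType.toOrd (z γ β)).2, β, by simpa using hβγ,
        by simp⟩
    rw [h1] at h0
    exact absurd h0 (by decide)
  · -- colour 1
    have hB3 := card_pull _ Bs hB1
    rw [hB2, Cardinal.lift_inj] at hB3
    have hXM : #X = #(μ.ord.ToType) := by rw [hX, Cardinal.mk_ord_toType]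
    obtain ⟨φ⟩ := Cardinal.eq.1 hXM
    let ξ : X → Ordinal.{u} := fun x => (Ordinal.ToType.toOrd (φ x)).1
    have hξ : ∀ x, ξ x < μ.ord := fun x => (Ordinal.ToType.toOrd (φ x)).2
    let h' : X → W := fun x => Ordinal.ToType.mk ⟨f (ξ x), hf2 _ (hξ x)⟩
    have hlt : ∀ x y, φ x < φ y → h' x < h' y := by
      intro x y hxy
      simp only [h']
      rw [OrderIso.lt_iff_lt]
      apply hf1 (hξ x) (hξ y)
      show (Ordinal.ToType.toOrd (φ x)).1 < (Ordinal.ToType.toOrd (φ y)).1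
      exact (OrderIso.lt_iff_lt (Ordinal.ToType.mk (o := μ.ord)).symm).2 hxy
    obtain ⟨s, i, hs⟩ := exists_hom μ U hU1 hU2 (I := S) (hScard.trans_lt hμ1)
      (fun x y => h' x < h' y) (by
        intro x
        have h1 : {y | ¬ h' x < h' y} ⊆ φ ⁻¹' (Set.Iic (φ x)) := by
          intro y hy
          by_contra hcon
          exact hy (hlt x y (not_le.1 hcon))
        have hμ0 : ℵ₀ ≤ μ := hμℵ.le
        refine lt_of_le_of_lt (Cardinal.mk_le_mk_of_subset h1) ?_
        rw [Cardinal.mk_preimage_equiv]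
        have h3 : Set.Iic (φ x) = insert (φ x) (Set.Iio (φ x)) := Set.Iio_insert.symm
        rw [h3]
        refine lt_of_le_of_lt (Cardinal.mk_insert_le) ?_
        exact Cardinal.add_lt_of_lt hμ0 (Cardinal.mk_Iio_toType_ord_lt _)
          (one_lt_aleph0.trans_le hμ0))
      (fun x y => d (h' x) (h' y))
    have hsmall := hz2 (fun n => h' (s n)) i (fun m n hmn => ⟨(hs m n hmn).1, (hs m n hmn).2.le⟩)
    have hsub : {x : L | (Ordinal.ToType.toOrd x).1 ∈ Bs} ⊆
        {x : L | ∀ n, ∃ β < h' (s n), z (h' (s n)) β = x} := by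
      intro x hx n
      have h1 := hc (ξ (s n)) (hξ (s n)) _ hx
      simp only [c] at h1
      split_ifs at h1 with h2
      · obtain ⟨ha, hb, β, hβ1, hβ2⟩ := h2
        exact ⟨β, hβ1, hβ2.trans ((Ordinal.ToType.mk (o := lam.ord)).apply_symm_apply x)⟩
      · exact absurd h1 (by decide)
    have h1 := Cardinal.mk_le_mk_of_subset hsub
    rw [hB3] at h1
    exact absurd hsmall (not_lt.2 h1)

end Pool.Agent.Results.MP_cf3da8_lc.LocalCH
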